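import Mathlib
import Pool.Agent.H.MP_160bbb_an.B

set_option autoImplicit false

namespace Pool.Agent.Results.MP_160bbb_an.No

open Filter Topology Finset Real MeasureTheory Pool.Agent.H.MP_160bbb_an

/-- The series of `x`, summed in the given order, converges to `s`. -/
def Conv (x : ℕ → ℂ) (s : ℂ) : Prop := Tendsto (fun N => ∑ n ∈ range N, x n) atTop (𝓝 s)

/-- Sum range. -/
def SR (x : ℕ → ℂ) : Set ℂ := {s | ∃ σ : Equiv.Perm ℕ, Conv (x ∘ σ) s}

/-- Achievement set. -/
def Ach (x : ℕ → ℂ) : Set ℂ := {s | ∃ A : Set ℕ, Conv (A.indicator x) s}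

/-- binary weights -/
noncomputable def δ (i : ℕ) : ℝ := ofDigitsTerm (fun _ => (1 : Fin 2)) i

lemma δ_eq (c : ℕ → Fin 2) (i : ℕ) : ofDigitsTerm c i = if c i = 1 then δ i else 0 := by
  obtain h | h : c i = 0 ∨ c i = 1 := by omega
  all_goals simp [δ, ofDigitsTerm, h]

/-- small summable part -/
noncomputable def e (n : ℕ) : ℂ :=
  if n % 3 = 0 then 0 else if n % 3 = 1 then δ (n / 3) else δ (n / 3) * Complex.I

lemma e3 (i : ℕ) : e (i * 3) = 0 ∧ e (i * 3 + 1) = δ i ∧ e (i * 3 + 2) = δ i * Complex.I := by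
  unfold e
  rw [if_pos (by omega), if_neg (by omega), if_pos (by omega), if_neg (by omega),
    if_neg (by omega), show (i * 3 + 1) / 3 = i by omega, show (i * 3 + 2) / 3 = i by omega]
  simp

lemma e_sum : Summable e := by
  have h : Summable fun p : ℕ × Fin 3 => δ p.1 :=
    (summable_prod_of_nonneg fun _ => ofDigitsTerm_nonneg).2 ⟨fun _ => Summable.of_finite, by
      simpa using summable_ofDigitsTerm.mul_left 3⟩
  refine .of_norm_bounded (h.comp_injective (Nat.divModEquiv 3).injective) fun n => ?_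
  have : 0 ≤ δ (n / 3) := ofDigitsTerm_nonneg
  unfold e
  split_ifs <;> simp [abs_of_nonneg, this]

theorem result : ∃ x : ℕ → ℂ, (∃ s, Conv x s) ∧ ¬ Summable (fun n => ‖x n‖) ∧ SR x = Set.univ ∧
    Ach x ≠ Set.univ ∧ volume (Ach x) ≠ 0 ∧ ¬ IsMeagre (Ach x) := by
  classical
  let x : ℕ → ℂ := fun n => y n + e n
  have x0 : Tendsto x atTop (𝓝 0) := by simpa using y_lim.add e_sum.tendsto_atTop_zero
  have x1 : ∀ A : Set ℕ, Tendsto (A.indicator x) atTop (𝓝 0) := fun A => squeeze_zero_norm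
    (fun n => norm_indicator_le_norm_self _ _) (tendsto_zero_iff_norm_tendsto_zero.1 x0)
  have hS : ∀ s, s ∈ SR x := fun s => by
    obtain ⟨σ, hσ⟩ := sr (s - ∑' n, e n)
    refine ⟨σ, ?_⟩
    have := hσ.add (σ.hasSum_iff.2 e_sum.hasSum).tendsto_sum_nat
    simpa [Conv, x, sum_add_distrib] using this
  have hA : Set.Ioo 0 1 ×ℂ Set.Ioo 0 1 ⊆ Ach x := fun s hs => by
    have h1 := (hasSum_ofDigitsTerm_digits s.re one_lt_two
      (Set.Ioo_subset_Ico_self hs.1)).tendsto_sum_nat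
    have h2 := (hasSum_ofDigitsTerm_digits s.im one_lt_two
      (Set.Ioo_subset_Ico_self hs.2)).tendsto_sum_nat
    refine ⟨{n | if n % 3 = 2 then digits s.im 2 (n / 3) = 1 else digits s.re 2 (n / 3) = 1},
      grp 3 three_pos (x1 _) ?_⟩
    have := h1.ofReal.add (h2.ofReal.mul_const Complex.I)
    rw [Complex.re_add_im] at this
    refine this.congr fun N => ?_
    push_cast
    rw [sum_mul, ← sum_add_distrib]
    refine sum_congr rfl fun g _ => ?_
    simp only [sum_range_succ, range_zero, sum_empty, Set.indicator, Set.mem_ofPred_eq, add_zero,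
      show g * 3 / 3 = g by omega, show (g * 3 + 1) / 3 = g by omega,
      show (g * 3 + 2) / 3 = g by omega, show g * 3 % 3 = 0 by omega,
      show (g * 3 + 1) % 3 = 1 by omega, show (g * 3 + 2) % 3 = 2 by omega, x, y3, e3, δ_eq]
    by_cases h1 : digits s.re 2 g = 1 <;> by_cases h2 : digits s.im 2 g = 1 <;> simp [h1, h2]
  have hO : IsOpen (Set.Ioo (0 : ℝ) 1 ×ℂ Set.Ioo (0 : ℝ) 1) := isOpen_Ioo.reProdIm isOpen_Ioo
  have hN : (Set.Ioo (0 : ℝ) 1 ×ℂ Set.Ioo (0 : ℝ) 1).Nonempty :=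
    ⟨⟨1 / 2, 1 / 2⟩, by constructor <;> norm_num⟩
  refine ⟨x, ⟨0 + ∑' n, e n, ?_⟩, fun h => ?_, Set.eq_univ_of_forall hS, fun h => ?_,
    fun h => hO.measure_ne_zero _ hN (measure_mono_null hA h),
    fun h => not_isMeagre_of_isOpen hO hN (h.mono hA)⟩
  · have := (grp 3 three_pos y_lim (s := 0) (by simp [sum_range_succ, y3])).add
      e_sum.hasSum.tendsto_sum_nat
    simpa [Conv, x, sum_add_distrib] using this
  · have k : ∀ s, s = ∑' n, x n := fun s => (hS s).elim fun σ hσ =>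
      tendsto_nhds_unique hσ (σ.hasSum_iff.2 h.of_norm.hasSum).tendsto_sum_nat
    exact zero_ne_one ((k 0).trans (k 1).symm)
  obtain ⟨A, hA⟩ : ((ofDigits χ : ℝ) - Complex.I) ∈ Ach x := by rw [h]; trivial
  let γ : ℕ → ℕ → Fin 2 := fun r i => if i * 3 + r ∈ A then 1 else 0
  let σ : ℕ → ℤ := fun i => (γ 0 i : ℕ) - (γ 1 i : ℕ)
  have h1 : ∀ N, ∑ n ∈ range (N * 3), A.indicator x n = (∑ i ∈ range N, σ i * α i +
      ∑ i ∈ range N, ofDigitsTerm (γ 1) i : ℝ) + (∑ i ∈ range N, σ i * β i +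
      ∑ i ∈ range N, ofDigitsTerm (γ 2) i : ℝ) * Complex.I := fun N => by
    induction N with
    | zero => simp
    | succ N ih =>
      rw [add_one_mul, sum_range_add, ih]
      simp only [sum_range_succ, range_zero, sum_empty, Set.indicator, add_zero, x, y3, e3, δ_eq,
        σ, γ, w]
      split_ifs <;> simp_all <;> ring
  have h2 := (hA.comp (tendsto_id.atTop_mul_const' three_pos)).congr h1
  have h3 : ∀ r, Tendsto (fun N => ∑ i ∈ range N, ofDigitsTerm (γ r) i) atTop
      (𝓝 (ofDigits (γ r))) := fun r => summable_ofDigitsTerm.hasSum.tendsto_sum_nat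
  have := hole σ (γ 1) (fun i => by simp only [σ]; omega) (fun i hi => by simp [σ, hi])
    (h := ofDigits χ - ofDigits (γ 1)) (v := -1 - ofDigits (γ 2))
    (by simpa using ((Complex.continuous_re.tendsto _).comp h2).sub (h3 1))
    (by simpa using ((Complex.continuous_im.tendsto _).comp h2).sub (h3 2)) (by ring)
  linarith [ofDigits_nonneg (γ 2)]

end Pool.Agent.Results.MP_160bbb_an.No
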